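import Pool.Agent.Helper831.V6.Defs

attribute [local instance] VN831.bcFunctor_additive VN831.viaAdd VN831.viaMod

set_option autoImplicit false

namespace V6

open Pool.Agent.RK TN970 VN831


theorem repEq {Γ : Type} [Group Γ] (N : Subgroup Γ) (g h : Γ) :
    rep N g = rep N h ↔ g * h⁻¹ ∈ N := by
  have hiff : (Quotient.mk (QuotientGroup.rightRel N) g = Quotient.mk (QuotientGroup.rightRel N) h) ↔
      g * h⁻¹ ∈ N := by
    rw [Quotient.eq, QuotientGroup.rightRel_apply, ← N.inv_mem_iff]
    simp
  rw [← hiff]
  constructor
  · intro he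
    have h1 := Quotient.out_eq (Quotient.mk (QuotientGroup.rightRel N) g)
    have h2 := Quotient.out_eq (Quotient.mk (QuotientGroup.rightRel N) h)
    rw [← h1, ← h2]
    exact congrArg _ he
  · intro he
    exact congrArg Quotient.out he

end V6
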