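import Pool.Agent.Helper831.V6.Defs

attribute [local instance] VN831.bcFunctor_additive VN831.viaAdd VN831.viaMod

set_option autoImplicit false

namespace V6

open Pool.Agent.RK TN970 VN831


theorem snMulEv_g {Γ D : Type} [Group Γ] [DivisionRing D] (u : Γ →* Dˣ) (N : Subgroup Γ) (x : D)
    (hx : x ∈ SN u N) (g : Γ) : x * ((u g : Dˣ) : D) ∈ SN u N := by
  unfold SN at hx
  induction hx using Submodule.span_induction with
  | mem y hy =>
    obtain ⟨h, rfl⟩ := hy
    apply Submodule.subset_span
    refine ⟨h * g, ?_⟩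
    show ((u (h * g) : Dˣ) : D) = ((u h : Dˣ) : D) * ((u g : Dˣ) : D)
    rw [map_mul, Units.val_mul]
  | zero =>
    rw [zero_mul]
    exact Submodule.zero_mem _
  | add y z _ _ hy hz =>
    rw [add_mul]
    exact Submodule.add_mem _ hy hz
  | smul c y _ hy =>
    have h : (c • y) * ((u g : Dˣ) : D) = c • (y * ((u g : Dˣ) : D)) := by
      show ((c : D) * y) * ((u g : Dˣ) : D) = (c : D) * (y * ((u g : Dˣ) : D))
      rw [mul_assoc]
    rw [h]
    exact Submodule.smul_mem _ _ hy

theorem snMulEv {Γ D : Type} [Group Γ] [DivisionRing D] (u : Γ →* Dˣ) (N : Subgroup Γ) (x : D)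
    (hx : x ∈ SN u N) (a : MonoidAlgebra ℤ Γ) : x * ev u a ∈ SN u N := by
  induction a using MonoidAlgebra.induction_on with
  | of g =>
    have h : ev u (MonoidAlgebra.of ℤ Γ g) = ((u g : Dˣ) : D) := by
      show MonoidAlgebra.lift ℤ D Γ ((Units.coeHom D).comp u) (MonoidAlgebra.of ℤ Γ g) = _
      rw [MonoidAlgebra.lift_of]
      rfl
    rw [h]
    exact snMulEv_g u N x hx g
  | add f g hf hg =>
    rw [map_add, mul_add]
    exact Submodule.add_mem _ hf hg
  | smul r f hf =>
    have h : x * ev u (r • f) = r • (x * ev u f) := by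
      rw [map_zsmul, mul_smul_comm]
    rw [h]
    exact zsmul_mem hf r

end V6
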