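import Pool.Agent.Helper831.V6.Defs
import Pool.Agent.Helper831.V6.P_repEq

attribute [local instance] VN831.bcFunctor_additive VN831.viaAdd VN831.viaMod

set_option autoImplicit false

namespace V6

open Pool.Agent.RK TN970 VN831


theorem repSet {Γ : Type} [Group Γ] (N : Subgroup Γ) (s : Finset Γ) (hs : ∀ g ∈ s, rep N g = g) :
    ∀ g ∈ s, ∀ h ∈ s, g ≠ h → g * h⁻¹ ∉ N := by
  intro g hg h hh hne hN
  have e := (repEq N g h).2 hN
  rw [hs g hg, hs h hh] at e
  exact hne e

end V6
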