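import Pool.Agent.Helper831.V6.Defs
import Pool.Agent.Helper831.V6.P_repSet
import Pool.Agent.Helper831.V6.P_rightInv
import Pool.Agent.Helper831.V6.P_snFin
import Pool.Agent.Helper831.V6.P_unIndep
import Pool.Agent.Helper831.V6.Un

attribute [local instance] VN831.bcFunctor_additive VN831.viaAdd VN831.viaMod

set_option autoImplicit false

namespace V6

open Pool.Agent.RK TN970 VN831


theorem unIndepD {Γ : Type} [Group Γ] {R' R U D : Type} [Ring R'] [StarRing R'] [Ring R] [Ring U]
    [DivisionRing D] {τ' : R' →+ ℝ} {j : R' →+* R} {ι : R →+* U} {κ : D →+* U} {u : Γ →* Dˣ}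
    {lam : Γ →* R} {N : Subgroup Γ} (S : Setup τ' j ι κ u lam N) {m : Type} [Fintype m] {b : ℕ} (v : m → Fin b → D)
    (hv : ∀ i t, v i t ∈ SN u N) (hind : LinearIndependent (Dc u N) v) (c : m → U)
    (hc : ∀ i, c i ∈ UN j ι) (h : ∀ t, ∑ i, c i * κ (v i t) = 0) : ∀ i, c i = 0 := by
  classical
  obtain ⟨s, k, hs, hk⟩ := snFin u N (n := m × Fin b) (fun p => v p.1 p.2) (fun p => hv p.1 p.2)
  have hk' : ∀ i t, v i t = ∑ g ∈ s, ((k (i, t) g : Dc u N) : D) * ((u g : Dˣ) : D) :=
    fun i t => hk (i, t)
  let M : Matrix m (Fin b × s) (Dc u N) := fun i p => k (i, p.1) p.2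
  have hM : LinearIndependent (Dc u N) (fun i => M i) := by
    rw [Fintype.linearIndependent_iff] at hind ⊢
    intro a ha
    apply hind a
    funext t
    simp only [Finset.sum_apply, Pi.smul_apply, Pi.zero_apply]
    have h1 : ∀ g ∈ s, ∑ i, a i * k (i, t) g = 0 := by
      intro g hg
      have h2 := congrFun ha (t, ⟨g, hg⟩)
      simp only [Finset.sum_apply, Pi.smul_apply, Pi.zero_apply, smul_eq_mul] at h2
      exact h2
    calc ∑ i, a i • v i t
        = ∑ i, ∑ g ∈ s, ((a i * k (i, t) g : Dc u N) : D) * ((u g : Dˣ) : D) := by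
          apply Finset.sum_congr rfl
          intro i _
          rw [hk' i t, Finset.smul_sum]
          apply Finset.sum_congr rfl
          intro g _
          show (a i : D) * (((k (i, t) g : Dc u N) : D) * ((u g : Dˣ) : D)) = _
          rw [← mul_assoc]
          rfl
      _ = ∑ g ∈ s, ((∑ i, a i * k (i, t) g : Dc u N) : D) * ((u g : Dˣ) : D) := by
          rw [Finset.sum_comm]
          apply Finset.sum_congr rfl
          intro g _
          rw [← Finset.sum_mul]
          congr 1
          have h4 := map_sum (Dc u N).subtype (fun i => a i * k (i, t) g) Finset.univ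
          exact h4.symm
      _ = 0 := Finset.sum_eq_zero (fun g hg => by rw [h1 g hg]; simp)
  obtain ⟨W, hW⟩ := rightInv M hM
  have hz : ∀ t, ∀ g ∈ s, ∑ i, c i * κ ((k (i, t) g : Dc u N) : D) = 0 := by
    intro t
    apply unIndep S s (repSet N s hs) (fun g => ∑ i, c i * κ ((k (i, t) g : Dc u N) : D))
    · intro g _
      apply unSum S
      intro i _
      exact unMul S _ _ (hc i) (unK S _)
    · rw [← h t]
      calc ∑ g ∈ s, (∑ i, c i * κ ((k (i, t) g : Dc u N) : D)) * ι (lam g)
          = ∑ g ∈ s, ∑ i, c i * κ ((k (i, t) g : Dc u N) : D) * ι (lam g) := by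
            apply Finset.sum_congr rfl
            intro g _
            rw [Finset.sum_mul]
        _ = ∑ i, ∑ g ∈ s, c i * κ ((k (i, t) g : Dc u N) : D) * ι (lam g) := Finset.sum_comm
        _ = ∑ i, c i * κ (v i t) := by
            apply Finset.sum_congr rfl
            intro i _
            rw [hk' i t, map_sum, Finset.mul_sum]
            apply Finset.sum_congr rfl
            intro g _
            rw [map_mul, S.hu g, mul_assoc]
  intro l
  have h1 : c l = ∑ i, c i * κ (((M * W) i l : Dc u N) : D) := by
    rw [hW]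
    rw [Finset.sum_eq_single l]
    · simp
    · intro i _ hi
      rw [Matrix.one_apply_ne hi]
      simp
    · intro hl
      exact absurd (Finset.mem_univ l) hl
  rw [h1]
  have h2 : ∀ i, κ (((M * W) i l : Dc u N) : D) =
      ∑ p, κ ((M i p : Dc u N) : D) * κ ((W p l : Dc u N) : D) := by
    intro i
    rw [Matrix.mul_apply]
    have h3 : ((∑ p, M i p * W p l : Dc u N) : D) = ∑ p, ((M i p : Dc u N) : D) * ((W p l : Dc u N) : D) := by
      exact map_sum (Dc u N).subtype (fun p => M i p * W p l) Finset.univ
    rw [h3, map_sum]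
    apply Finset.sum_congr rfl
    intro p _
    rw [map_mul]
  calc ∑ i, c i * κ (((M * W) i l : Dc u N) : D)
      = ∑ i, ∑ p, c i * κ ((M i p : Dc u N) : D) * κ ((W p l : Dc u N) : D) := by
        apply Finset.sum_congr rfl
        intro i _
        rw [h2 i, Finset.mul_sum]
        apply Finset.sum_congr rfl
        intro p _
        rw [mul_assoc]
    _ = ∑ p, (∑ i, c i * κ ((M i p : Dc u N) : D)) * κ ((W p l : Dc u N) : D) := by
        rw [Finset.sum_comm]
        apply Finset.sum_congr rfl
        intro p _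
        rw [Finset.sum_mul]
    _ = 0 := by
        apply Finset.sum_eq_zero
        intro p _
        have h5 : ∑ i, c i * κ ((M i p : Dc u N) : D) = 0 := hz p.1 p.2.1 p.2.2
        rw [h5, zero_mul]

end V6
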