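import Pool.Agent.Helper831.V6.Defs
import Pool.Agent.Helper831.V6.P_snMulEv
import Pool.Agent.Helper831.V6.P_unIndepD
import Pool.Agent.Helper831.V6.Un

attribute [local instance] VN831.bcFunctor_additive VN831.viaAdd VN831.viaMod

set_option autoImplicit false

namespace V6

open Pool.Agent.RK TN970 VN831


theorem indepMod {Γ : Type} [Group Γ] {R' R U D : Type} [Ring R'] [StarRing R'] [Ring R] [Ring U]
    [DivisionRing D] {τ' : R' →+ ℝ} {j : R' →+* R} {ι : R →+* U} {κ : D →+* U} {u : Γ →* Dˣ}
    {lam : Γ →* R} {N : Subgroup Γ} (S : Setup τ' j ι κ u lam N) {a b d r : ℕ} (A : Matrix (Fin a) (Fin b) (MonoidAlgebra ℤ Γ))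
    (B : Matrix (Fin b) (Fin d) (MonoidAlgebra ℤ Γ)) (x : Fin r → ZN u N (B.map (ev u)))
    (hx : LinearIndependent (Dc u N) (fun q =>
      (Submodule.Quotient.mk (x q) : HN u N (A.map (ev u)) (B.map (ev u)))))
    (c : Fin r → U) (hc : ∀ q, c q ∈ UN j ι) (w : Fin a → U) (hw : InS j ι κ u N w)
    (h : ∀ t, ∑ q, c q * κ ((x q : Fin b → D) t) = ∑ i, w i * κ (ev u (A i t))) :
    ∀ q, c q = 0 := by
  classical
  obtain ⟨m, e, y, he, hy, hwy⟩ := hw
  let bb : Fin m → Fin b → D := fun l => Matrix.vecMul (y l) (A.map (ev u))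
  have hbb : ∀ l, bb l ∈ BN u N (A.map (ev u)) := fun l => ⟨y l, hy l, rfl⟩
  let W : Submodule (Dc u N) (Fin b → D) := Submodule.span (Dc u N) (Set.range bb)
  have hW : W ≤ BN u N (A.map (ev u)) :=
    Submodule.span_le.2 (by rintro _ ⟨l, rfl⟩; exact hbb l)
  have hSN : ∀ v ∈ BN u N (A.map (ev u)), ∀ t, v t ∈ SN u N := by
    rintro v ⟨w, hw1, rfl⟩ t
    show ∑ i, w i * (A.map (ev u)) i t ∈ SN u N
    exact Submodule.sum_mem _ fun i _ => snMulEv u N (w i) (hw1 i) (A i t)
  haveI : Module.Finite (Dc u N) W := Module.Finite.span_of_finite _ (Set.finite_range bb)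
  let bas := Module.finBasis (Dc u N) W
  have hbW : ∀ l, bb l ∈ W := fun l => Submodule.subset_span ⟨l, rfl⟩
  let k : Fin m → Fin (Module.finrank (Dc u N) W) → Dc u N := fun l s => bas.repr ⟨bb l, hbW l⟩ s
  have hk : ∀ l t, bb l t = ∑ s, ((k l s : Dc u N) : D) * (bas s : Fin b → D) t := by
    intro l t
    have h1 := bas.sum_repr ⟨bb l, hbW l⟩
    have h2 := congrArg (fun z : W => (z : Fin b → D) t) h1
    simp only [Submodule.coe_sum, Submodule.coe_smul, Finset.sum_apply, Pi.smul_apply] at h2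
    rw [← h2]
    rfl
  -- independence
  have hx0 : LinearIndependent (Dc u N) x := by
    have := hx
    exact LinearIndependent.of_comp
      (Submodule.mkQ ((BN u N (A.map (ev u))).submoduleOf (ZN u N (B.map (ev u))))) this
  have hx1 : LinearIndependent (Dc u N) (fun q => ((x q : ZN u N (B.map (ev u))) : Fin b → D)) :=
    hx0.map' (Submodule.subtype _) (Submodule.ker_subtype _)
  have hb1 : LinearIndependent (Dc u N) (fun s => ((bas s : W) : Fin b → D)) :=
    bas.linearIndependent.map' (Submodule.subtype _) (Submodule.ker_subtype _)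
  have hdis : Disjoint
      (Submodule.span (Dc u N) (Set.range (fun q => ((x q : ZN u N (B.map (ev u))) : Fin b → D))))
      (Submodule.span (Dc u N) (Set.range (fun s => ((bas s : W) : Fin b → D)))) := by
    rw [Submodule.disjoint_def]
    intro z hz1 hz2
    have hz3 : z ∈ BN u N (A.map (ev u)) := by
      refine (Submodule.span_le.2 ?_ : Submodule.span (Dc u N)
        (Set.range (fun s => ((bas s : W) : Fin b → D))) ≤ BN u N (A.map (ev u))) hz2
      rintro _ ⟨s, rfl⟩
      exact hW (bas s).2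
    rw [Submodule.mem_span_range_iff_exists_fun] at hz1
    obtain ⟨g, hg⟩ := hz1
    have h1 : ∑ q, g q • (Submodule.Quotient.mk (x q) :
        HN u N (A.map (ev u)) (B.map (ev u))) = 0 := by
      have h2 : (Submodule.Quotient.mk (∑ q, g q • x q) :
          HN u N (A.map (ev u)) (B.map (ev u))) = 0 := by
        rw [Submodule.Quotient.mk_eq_zero]
        show ((∑ q, g q • x q : ZN u N (B.map (ev u))) : Fin b → D) ∈ BN u N (A.map (ev u))
        have h3 : ((∑ q, g q • x q : ZN u N (B.map (ev u))) : Fin b → D) = z := by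
          rw [← hg, Submodule.coe_sum]
          rfl
        rw [h3]
        exact hz3
      rw [← h2]
      exact (map_sum (Submodule.mkQ
        ((BN u N (A.map (ev u))).submoduleOf (ZN u N (B.map (ev u))))) _ _).symm
    have h4 := Fintype.linearIndependent_iff.1 hx g h1
    rw [← hg]
    exact Finset.sum_eq_zero fun q _ => by rw [h4 q, zero_smul]
  have hind := hx1.sum_type hb1 hdis
  let c' : Fin r ⊕ Fin (Module.finrank (Dc u N) W) → U :=
    Sum.elim c (fun s => ∑ l, e l * κ ((-(k l s) : Dc u N) : D))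
  have hc' : ∀ i, c' i ∈ UN j ι := by
    rintro (q | s)
    · exact hc q
    · exact unSum S _ _ fun l _ => unMul S _ _ (he l) (unK S _)
  have hv : ∀ i t, (Sum.elim (fun q => ((x q : ZN u N (B.map (ev u))) : Fin b → D))
      (fun s => ((bas s : W) : Fin b → D)) i) t ∈ SN u N := by
    rintro (q | s) t
    · exact (x q).2.1 t
    · exact hSN _ (hW (bas s).2) t
  have hfin := unIndepD S _ hv hind c' hc' ?_
  · intro q
    exact hfin (Sum.inl q)
  · intro t
    rw [Fintype.sum_sum_type]
    show ∑ q, c q * κ ((x q : Fin b → D) t) +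
      ∑ s, (∑ l, e l * κ ((-(k l s) : Dc u N) : D)) * κ ((bas s : Fin b → D) t) = 0
    rw [h t]
    have e1 : ∑ i, w i * κ (ev u (A i t)) = ∑ l, e l * κ (bb l t) := by
      have e2 : ∀ l, κ (bb l t) = ∑ i, κ (y l i) * κ (ev u (A i t)) := by
        intro l
        show κ (∑ i, y l i * (A.map (ev u)) i t) = _
        rw [map_sum]
        exact Finset.sum_congr rfl fun i _ => by rw [map_mul]; rfl
      simp only [e2, hwy, Finset.mul_sum, Finset.sum_mul]
      rw [Finset.sum_comm]
      exact Finset.sum_congr rfl fun l _ => Finset.sum_congr rfl fun i _ => mul_assoc _ _ _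
    have e3 : ∑ l, e l * κ (bb l t) = ∑ s, (∑ l, e l * κ ((k l s : Dc u N) : D)) *
        κ ((bas s : Fin b → D) t) := by
      simp only [hk, map_sum, map_mul, Finset.mul_sum, Finset.sum_mul]
      rw [Finset.sum_comm]
      exact Finset.sum_congr rfl fun l _ => Finset.sum_congr rfl fun i _ => (mul_assoc _ _ _).symm
    have e4 : ∑ s, (∑ l, e l * κ ((-(k l s) : Dc u N) : D)) * κ ((bas s : Fin b → D) t) =
        -∑ s, (∑ l, e l * κ ((k l s : Dc u N) : D)) * κ ((bas s : Fin b → D) t) := by
      rw [← Finset.sum_neg_distrib]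
      refine Finset.sum_congr rfl fun s _ => ?_
      rw [← neg_mul, ← Finset.sum_neg_distrib]
      congr 1
      refine Finset.sum_congr rfl fun l _ => ?_
      have e5 : ((-(k l s) : Dc u N) : D) = -((k l s : Dc u N) : D) := rfl
      rw [e5, map_neg, mul_neg]
    rw [e1, e3, e4, add_neg_cancel]

end V6
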