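import Pool.Agent.Helper831.V6.Defs
import Pool.Agent.Helper831.V6.Un

attribute [local instance] VN831.bcFunctor_additive VN831.viaAdd VN831.viaMod

set_option autoImplicit false

namespace V6

open Pool.Agent.RK TN970 VN831


theorem insSmul {Γ : Type} [Group Γ] {R' R U D : Type} [Ring R'] [StarRing R'] [Ring R] [Ring U]
    [DivisionRing D] {τ' : R' →+ ℝ} {j : R' →+* R} {ι : R →+* U} {κ : D →+* U} {u : Γ →* Dˣ}
    {lam : Γ →* R} {N : Subgroup Γ} (S : Setup τ' j ι κ u lam N) {b : ℕ} (v : Fin b → U) (hv : InS j ι κ u N v) (c : U) (hc : c ∈ UN j ι) :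
    InS j ι κ u N (fun t => c * v t) := by
  obtain ⟨m, d, y, h1, h2, h3⟩ := hv
  refine ⟨m, fun i => c * d i, y, fun i => unMul S c (d i) hc (h1 i), h2, fun t => ?_⟩
  simp only [h3 t, Finset.mul_sum, mul_assoc]

end V6
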