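import Pool.Agent.Helper831.V6.Defs
import Pool.Agent.Helper831.V6.P_insD
import Pool.Agent.Helper831.V6.P_insSmul
import Pool.Agent.Helper831.V6.P_insSum
import Pool.Agent.Helper831.V6.Un

attribute [local instance] VN831.bcFunctor_additive VN831.viaAdd VN831.viaMod

set_option autoImplicit false

namespace V6

open Pool.Agent.RK TN970 VN831


theorem insBase {Γ : Type} [Group Γ] {R' R U D : Type} [Ring R'] [StarRing R'] [Ring R] [Ring U]
    [DivisionRing D] {τ' : R' →+ ℝ} {j : R' →+* R} {ι : R →+* U} {κ : D →+* U} {u : Γ →* Dˣ}
    {lam : Γ →* R} {N : Subgroup Γ} (S : Setup τ' j ι κ u lam N) {b : ℕ} (v : Fin b → R) (hv : ∀ t, (show Via j from v t) ∈ SR j lam) :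
    InS j ι κ u N (fun t => ι (v t)) := by
  classical
  have key : ∀ (t0 : Fin b) (x : Via j), x ∈ SR j lam →
      InS j ι κ u N (fun t => ι (if t = t0 then (show R from x) else 0)) := by
    intro t0 x hx
    refine Submodule.span_induction (p := fun (x : Via j) _ =>
      InS j ι κ u N (fun t => ι (if t = t0 then (show R from x) else 0))) ?_ ?_ ?_ ?_ hx
    · rintro x ⟨g, rfl⟩
      have h1 := insD S (fun t : Fin b => if t = t0 then ((u g : Dˣ) : D) else 0) (by
        intro t
        by_cases h : t = t0
        · simp only [h, if_true]
          exact Submodule.subset_span ⟨g, rfl⟩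
        · simp only [h, if_false]
          exact Submodule.zero_mem _)
      have h2 : (fun t : Fin b => κ (if t = t0 then ((u g : Dˣ) : D) else 0)) =
          (fun t => ι (if t = t0 then (lam g) else 0)) := by
        funext t
        by_cases h : t = t0
        · simp only [h, if_true]
          exact S.hu g
        · simp only [h, if_false, map_zero]
      rw [h2] at h1
      exact h1
    · have h1 := insD S (fun _ : Fin b => (0 : D)) (fun t => Submodule.zero_mem _)
      have h2 : (fun _ : Fin b => κ (0 : D)) =
          (fun t => ι (if t = t0 then (0 : R) else 0)) := by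
        funext t
        simp
      rw [h2] at h1
      exact h1
    · intro x y _ _ hx hy
      have h1 := insSum S (fun (i : Bool) (t : Fin b) =>
        if i then ι (if t = t0 then (show R from x) else 0)
          else ι (if t = t0 then (show R from y) else 0)) (by
          intro i
          cases i
          · simpa using hy
          · simpa using hx)
      have h2 : (fun t : Fin b => ∑ i : Bool,
          if i then ι (if t = t0 then (show R from x) else 0)
          else ι (if t = t0 then (show R from y) else 0)) =
          (fun t => ι (if t = t0 then ((show R from x) + (show R from y)) else 0)) := by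
        funext t
        rw [Fintype.sum_bool]
        by_cases h : t = t0
        · simp [h]
        · simp [h]
      rw [h2] at h1
      exact h1
    · intro r x _ hx
      have h1 := insSmul S _ hx (ι (j r)) (unBase S r)
      have h2 : (fun t : Fin b => ι (j r) * ι (if t = t0 then (show R from x) else 0)) =
          (fun t => ι (if t = t0 then (j r * (show R from x)) else 0)) := by
        funext t
        rw [← map_mul]
        by_cases h : t = t0
        · simp [h]
        · simp [h]
      rw [h2] at h1
      exact h1
  have h1 := insSum S (fun (t0 : Fin b) (t : Fin b) =>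
    ι (if t = t0 then (v t0) else 0)) (fun t0 => key t0 _ (hv t0))
  have h2 : (fun t : Fin b => ∑ t0, ι (if t = t0 then (v t0) else 0)) = (fun t => ι (v t)) := by
    funext t
    rw [← map_sum, Finset.sum_ite_eq]
    simp
  rw [h2] at h1
  exact h1

end V6
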