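import Pool.Agent.Helper831.V6.Defs
import Pool.Agent.Helper831.V6.P_snMulEv
import Pool.Agent.Helper831.V6.P_splitKer
import Pool.Agent.Helper831.V6.P_unIndepD
import Pool.Agent.Helper831.V6.Un

attribute [local instance] VN831.bcFunctor_additive VN831.viaAdd VN831.viaMod

set_option autoImplicit false

namespace V6

open Pool.Agent.RK TN970 VN831


/-- right multiplication of rows over `D`, as a linear map -/
noncomputable def kerLemma_beta {Γ D : Type} [Group Γ] [DivisionRing D] (u : Γ →* Dˣ)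
    (N : Subgroup Γ) {b d : ℕ} (M : Matrix (Fin b) (Fin d) D) :
    (Fin b → D) →ₗ[Dc u N] (Fin d → D) where
  toFun w := Matrix.vecMul w M
  map_add' v w := Matrix.add_vecMul M v w
  map_smul' s v := by
    show Matrix.vecMul (s • v) M = s • Matrix.vecMul v M
    rw [Matrix.smul_vecMul]

theorem kerLemma_beta_apply {Γ D : Type} [Group Γ] [DivisionRing D] (u : Γ →* Dˣ)
    (N : Subgroup Γ) {b d : ℕ} (M : Matrix (Fin b) (Fin d) D) (w : Fin b → D) :
    kerLemma_beta u N M w = Matrix.vecMul w M := rfl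

theorem kerLemma_pi {Γ D : Type} [Group Γ] [DivisionRing D] (u : Γ →* Dˣ)
    (N : Subgroup Γ) {b m : ℕ} (y : Fin m → Fin b → D) (hy : ∀ i t, y i t ∈ SN u N)
    (z : Fin b → D) (hz : z ∈ Submodule.span (Dc u N) (Set.range y)) (t : Fin b) :
    z t ∈ SN u N := by
  have h1 : Submodule.span (Dc u N) (Set.range y) ≤
      Submodule.pi Set.univ (fun _ : Fin b => SN u N) := by
    rw [Submodule.span_le]
    rintro _ ⟨i, rfl⟩
    intro t _
    exact hy i t
  exact h1 hz t (Set.mem_univ t)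

theorem kerLemma_smul {Γ D : Type} [Group Γ] [DivisionRing D] (u : Γ →* Dˣ)
    (N : Subgroup Γ) (k : Dc u N) (x : D) : k • x = (k : D) * x := rfl

theorem kerLemma_split {Γ : Type} [Group Γ] {U D : Type} [Ring U]
    [DivisionRing D] (κ : D →+* U) (u : Γ →* Dˣ) (N : Subgroup Γ) {b m p : ℕ}
    (c : Fin m → U) (a : Fin m → Fin p → Dc u N) (z : Fin p → Fin b → D) (t : Fin b) :
    ∑ i, c i * κ ((∑ l, a i l • z l) t) = ∑ l, (∑ i, c i * κ ((a i l : Dc u N) : D)) * κ (z l t) := by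
  have h1 : ∀ i, c i * κ ((∑ l, a i l • z l) t) =
      ∑ l, c i * κ ((a i l : Dc u N) : D) * κ (z l t) := by
    intro i
    rw [Finset.sum_apply, map_sum, Finset.mul_sum]
    refine Finset.sum_congr rfl fun l _ => ?_
    rw [Pi.smul_apply, kerLemma_smul, map_mul, mul_assoc]
  rw [Finset.sum_congr rfl (fun i _ => h1 i), Finset.sum_comm]
  refine Finset.sum_congr rfl fun l _ => ?_
  rw [Finset.sum_mul]

theorem kerLemma_vec {Γ : Type} [Group Γ] {U D : Type} [Ring U]
    [DivisionRing D] (κ : D →+* U) {b d p : ℕ} (M : Matrix (Fin b) (Fin d) D)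
    (c : Fin p → U) (z : Fin p → Fin b → D) (t : Fin d) :
    ∑ i, (∑ l, c l * κ (z l i)) * κ (M i t) = ∑ l, c l * κ ((Matrix.vecMul (z l) M) t) := by
  have h1 : ∀ l, c l * κ ((Matrix.vecMul (z l) M) t) = ∑ i, c l * κ (z l i) * κ (M i t) := by
    intro l
    have h2 : (Matrix.vecMul (z l) M) t = ∑ i, z l i * M i t := rfl
    rw [h2, map_sum, Finset.mul_sum]
    refine Finset.sum_congr rfl fun i _ => ?_
    rw [map_mul, mul_assoc]
  rw [Finset.sum_congr rfl (fun l _ => h1 l), Finset.sum_comm]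
  refine Finset.sum_congr rfl fun i _ => ?_
  rw [Finset.sum_mul]

theorem kerLemma {Γ : Type} [Group Γ] {R' R U D : Type} [Ring R'] [StarRing R'] [Ring R] [Ring U]
    [DivisionRing D] {τ' : R' →+ ℝ} {j : R' →+* R} {ι : R →+* U} {κ : D →+* U} {u : Γ →* Dˣ}
    {lam : Γ →* R} {N : Subgroup Γ} (S : Setup τ' j ι κ u lam N) {b d : ℕ} (B : Matrix (Fin b) (Fin d) (MonoidAlgebra ℤ Γ)) (v : Fin b → U)
    (hv : InS j ι κ u N v) (h : ∀ t, ∑ i, v i * κ (ev u (B i t)) = 0) :
    ∃ (m : ℕ) (c : Fin m → U) (y : Fin m → Fin b → D), (∀ i, c i ∈ UN j ι) ∧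
      (∀ i, y i ∈ ZN u N (B.map (ev u))) ∧ ∀ t, v t = ∑ i, c i * κ (y i t) := by
  classical
  obtain ⟨m, c, y, hc, hy, hvy⟩ := hv
  obtain ⟨p, q, z, z', a, a', hz, hz', hβ, hind, hsum⟩ :=
    splitKer (kerLemma_beta u N (B.map (ev u))) y
  have hc1 : ∀ l, (∑ i, c i * κ ((a i l : Dc u N) : D)) ∈ UN j ι := fun l =>
    unSum S Finset.univ _ fun i _ => unMul S _ _ (hc i) (unK S (a i l))
  have hc2 : ∀ l, (∑ i, c i * κ ((a' i l : Dc u N) : D)) ∈ UN j ι := fun l =>
    unSum S Finset.univ _ fun i _ => unMul S _ _ (hc i) (unK S (a' i l))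
  have hv2 : ∀ t, v t = ∑ l, (∑ i, c i * κ ((a i l : Dc u N) : D)) * κ (z l t) +
      ∑ l, (∑ i, c i * κ ((a' i l : Dc u N) : D)) * κ (z' l t) := by
    intro t
    rw [← kerLemma_split κ u N c a z t, ← kerLemma_split κ u N c a' z' t,
      ← Finset.sum_add_distrib, hvy t]
    refine Finset.sum_congr rfl fun i _ => ?_
    rw [← mul_add, ← map_add, ← Pi.add_apply, ← hsum i]
  have hzker : ∀ l, Matrix.vecMul (z l) (B.map (ev u)) = 0 := fun l => hβ l
  have hzero : ∀ t, ∑ l, (∑ i, c i * κ ((a' i l : Dc u N) : D)) *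
      κ ((kerLemma_beta u N (B.map (ev u)) (z' l)) t) = 0 := by
    intro t
    have h1 := h t
    have h2 : ∑ i, v i * κ (ev u (B i t)) =
        ∑ i, (∑ l, (∑ i, c i * κ ((a i l : Dc u N) : D)) * κ (z l i)) * κ ((B.map (ev u)) i t) +
        ∑ i, (∑ l, (∑ i, c i * κ ((a' i l : Dc u N) : D)) * κ (z' l i)) *
          κ ((B.map (ev u)) i t) := by
      rw [← Finset.sum_add_distrib]
      refine Finset.sum_congr rfl fun i _ => ?_
      rw [hv2 i, add_mul, Matrix.map_apply]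
    rw [kerLemma_vec (Γ := Γ) κ (B.map (ev u)) _ z t,
      kerLemma_vec (Γ := Γ) κ (B.map (ev u)) _ z' t] at h2
    have h3 : ∑ l, (∑ i, c i * κ ((a i l : Dc u N) : D)) *
        κ ((Matrix.vecMul (z l) (B.map (ev u))) t) = 0 := by
      refine Finset.sum_eq_zero fun l _ => ?_
      rw [hzker l, Pi.zero_apply, map_zero, mul_zero]
    rw [h3, zero_add] at h2
    exact h2.symm.trans h1
  have hmem : ∀ l t, (kerLemma_beta u N (B.map (ev u)) (z' l)) t ∈ SN u N := by
    intro l t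
    have h2 : (kerLemma_beta u N (B.map (ev u)) (z' l)) t = ∑ i, z' l i * ev u (B i t) := rfl
    rw [h2]
    refine Submodule.sum_mem _ fun i _ => ?_
    exact snMulEv u N _ (kerLemma_pi u N y hy (z' l) (hz' l) i) _
  have hcz := unIndepD S (fun l => kerLemma_beta u N (B.map (ev u)) (z' l)) hmem hind _ hc2 hzero
  refine ⟨p, fun l => ∑ i, c i * κ ((a i l : Dc u N) : D), z, hc1, fun l => ?_, fun t => ?_⟩
  · exact ⟨fun i => kerLemma_pi u N y hy (z l) (hz l) i, hzker l⟩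
  · rw [hv2 t]
    have h4 : ∑ l, (∑ i, c i * κ ((a' i l : Dc u N) : D)) * κ (z' l t) = 0 := by
      refine Finset.sum_eq_zero fun l _ => ?_
      rw [hcz l, zero_mul]
    rw [h4, add_zero]

end V6
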