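import Pool.Agent.Helper831.V6.Defs
import Pool.Agent.Helper831.V6.P_indepMod
import Pool.Agent.Helper831.V6.P_insBase
import Pool.Agent.Helper831.V6.P_insD
import Pool.Agent.Helper831.V6.P_insDenom
import Pool.Agent.Helper831.V6.P_insSmul
import Pool.Agent.Helper831.V6.P_insSum
import Pool.Agent.Helper831.V6.Un

attribute [local instance] VN831.bcFunctor_additive VN831.viaAdd VN831.viaMod

set_option autoImplicit false

namespace V6

open Pool.Agent.RK TN970 VN831


theorem lower {Γ : Type} [Group Γ] {R' R U D : Type} [Ring R'] [StarRing R'] [Ring R] [Ring U]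
    [DivisionRing D] {τ' : R' →+ ℝ} {j : R' →+* R} {ι : R →+* U} {κ : D →+* U} {u : Γ →* Dˣ}
    {lam : Γ →* R} {N : Subgroup Γ} (S : Setup τ' j ι κ u lam N) (κ0 : MonoidAlgebra ℤ Γ →+* R) (hκ0 : ∀ a, κ (ev u a) = ι (κ0 a))
    {a b d : ℕ} (A : Matrix (Fin a) (Fin b) (MonoidAlgebra ℤ Γ))
    (B : Matrix (Fin b) (Fin d) (MonoidAlgebra ℤ Γ)) {r : ℕ}
    (x : Fin r → HN u N (A.map (ev u)) (B.map (ev u)))
    (hx : LinearIndependent (Dc u N) x) :
    ∃ f : (Fin r → R') →ₗ[R'] HR j lam (A.map κ0) (B.map κ0), Function.Injective f := by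
  have hz : ∀ q, ∃ z : ZN u N (B.map (ev u)),
      (Submodule.Quotient.mk z : HN u N (A.map (ev u)) (B.map (ev u))) = x q := fun q =>
    Submodule.Quotient.mk_surjective _ (x q)
  choose z hz using hz
  have hx' : LinearIndependent (Dc u N) (fun q =>
      (Submodule.Quotient.mk (z q) : HN u N (A.map (ev u)) (B.map (ev u)))) := by
    have e : (fun q => (Submodule.Quotient.mk (z q) : HN u N (A.map (ev u)) (B.map (ev u)))) = x :=
      funext hz
    rw [e]
    exact hx
  obtain ⟨s, w', hs, hw', hsw⟩ := insDenom S (fun q t => κ ((z q : Fin b → D) t))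
    (fun q => insD S (z q : Fin b → D) (z q).2.1)
  have hmem : ∀ q, (show Fin b → Via j from w' q) ∈ ZR j lam (B.map κ0) := by
    intro q
    refine Submodule.mem_inf.mpr ⟨?_, ?_⟩
    · rw [Submodule.mem_pi]
      intro i _
      exact hw' q i
    · rw [LinearMap.mem_ker]
      funext t
      show ∑ i, w' q i * κ0 (B i t) = 0
      apply S.loc.inj
      rw [map_sum, map_zero]
      have h1 := congrFun (z q).2.2 t
      have h2 : ∑ i, (z q : Fin b → D) i * ev u (B i t) = 0 := h1
      have h3 : ∀ i, ι (w' q i * κ0 (B i t)) = ι (j s) * κ ((z q : Fin b → D) i * ev u (B i t)) := by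
        intro i
        rw [map_mul, ← hsw, ← hκ0, map_mul, mul_assoc]
      rw [Finset.sum_congr rfl fun i _ => h3 i, ← Finset.mul_sum, ← map_sum, h2, map_zero, mul_zero]
  let W : Fin r → ZR j lam (B.map κ0) := fun q => ⟨w' q, hmem q⟩
  let f : (Fin r → R') →ₗ[R'] HR j lam (A.map κ0) (B.map κ0) :=
    Fintype.linearCombination R' (fun q =>
      (Submodule.Quotient.mk (W q) : HR j lam (A.map κ0) (B.map κ0)))
  refine ⟨f, ?_⟩
  rw [injective_iff_map_eq_zero]
  intro y hy
  have h1 : (Submodule.Quotient.mk (∑ q, y q • W q) : HR j lam (A.map κ0) (B.map κ0)) = 0 := by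
    rw [← hy]
    show _ = Fintype.linearCombination R' _ y
    rw [Fintype.linearCombination_apply]
    have h2 := map_sum (Submodule.mkQ ((BR j lam (A.map κ0)).submoduleOf (ZR j lam (B.map κ0))))
      (fun q => y q • W q) Finset.univ
    refine h2.trans (Finset.sum_congr rfl fun q _ => ?_)
    exact map_smul (Submodule.mkQ ((BR j lam (A.map κ0)).submoduleOf (ZR j lam (B.map κ0)))) (y q) (W q)
  rw [Submodule.Quotient.mk_eq_zero] at h1
  have h2 : ((∑ q, y q • W q : ZR j lam (B.map κ0)) : Fin b → Via j) ∈ BR j lam (A.map κ0) := h1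
  obtain ⟨w, hw, hwe⟩ := h2
  let w0 : Fin a → R := fun i => w i
  have hw2 : ∀ i, (show Via j from w0 i) ∈ SR j lam := by
    intro i
    exact (Submodule.mem_pi.mp hw) i (Set.mem_univ i)
  have hwe2 : ∀ t, ∑ i, w0 i * κ0 (A i t) = ∑ q, j (y q) * w' q t := by
    intro t
    have h3 := congrFun hwe t
    have h4 : ((∑ q, y q • W q : ZR j lam (B.map κ0)) : Fin b → Via j) t =
        (∑ q, j (y q) * w' q t : R) := by
      rw [Submodule.coe_sum, Finset.sum_apply]
      rfl
    rw [h4] at h3
    exact h3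
  have hc := indepMod S A B z hx' (fun q => ι (j (y q)) * ι (j s))
    (fun q => unMul S _ _ (unBase S (y q)) (unBase S s)) (fun i => ι (w0 i)) (insBase S w0 hw2) ?_
  · funext q
    have h3 := hc q
    have h4 := (isUnitS S s hs).mul_left_eq_zero.mp h3
    have h5 : j (y q) = 0 := S.loc.inj (by rw [h4, map_zero])
    exact S.jinj (by rw [h5]; exact (map_zero j).symm)
  · intro t
    have h3 := congrArg ι (hwe2 t)
    rw [map_sum, map_sum] at h3
    have h4 : ∀ q, ι (j (y q) * w' q t) = ι (j (y q)) * ι (j s) * κ ((z q : Fin b → D) t) := by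
      intro q
      rw [map_mul, ← hsw, mul_assoc]
    have h5 : ∀ i, ι (w0 i * κ0 (A i t)) = ι (w0 i) * κ (ev u (A i t)) := by
      intro i
      rw [map_mul, hκ0]
    rw [Finset.sum_congr rfl fun q _ => (h4 q).symm, Finset.sum_congr rfl fun i _ => (h5 i).symm]
    exact h3.symm

end V6
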