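import Pool.Agent.Helper831.V6.Defs
import Pool.Agent.Helper831.V6.P_insD
import Pool.Agent.Helper831.V6.P_insSmul
import Pool.Agent.Helper831.V6.P_insSum
import Pool.Agent.Helper831.V6.P_kerLemma
import Pool.Agent.Helper831.V6.Un

attribute [local instance] VN831.bcFunctor_additive VN831.viaAdd VN831.viaMod

set_option autoImplicit false

namespace V6

open Pool.Agent.RK TN970 VN831


theorem spanLemma_one {Γ : Type} [Group Γ] {D : Type}
    [DivisionRing D] {u : Γ →* Dˣ}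
    {N : Subgroup Γ} {a b d β : ℕ} (A : Matrix (Fin a) (Fin b) (MonoidAlgebra ℤ Γ))
    (B : Matrix (Fin b) (Fin d) (MonoidAlgebra ℤ Γ)) (x : Fin β → ZN u N (B.map (ev u)))
    (hx : ⊤ ≤ Submodule.span (Dc u N) (Set.range fun q =>
      (Submodule.Quotient.mk (x q) : HN u N (A.map (ev u)) (B.map (ev u)))))
    (y : Fin b → D) (hy : y ∈ ZN u N (B.map (ev u))) :
    ∃ (k : Fin β → Dc u N) (w : Fin a → D), (∀ r, w r ∈ SN u N) ∧
      ∀ t, y t = ∑ q, (k q : D) * (x q : Fin b → D) t + ∑ r, w r * ev u (A r t) := by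
  have h1 := hx (Submodule.mem_top (x := (Submodule.Quotient.mk (⟨y, hy⟩ : ZN u N (B.map (ev u))) :
    HN u N (A.map (ev u)) (B.map (ev u)))))
  rw [Submodule.mem_span_range_iff_exists_fun] at h1
  obtain ⟨k, hk⟩ := h1
  have h2 : (Submodule.Quotient.mk (⟨y, hy⟩ : ZN u N (B.map (ev u))) :
      HN u N (A.map (ev u)) (B.map (ev u))) = Submodule.Quotient.mk (∑ q, k q • x q) := by
    rw [← hk, ← Submodule.mkQ_apply, map_sum]
    refine Finset.sum_congr rfl fun q _ => ?_
    rw [map_smul]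
    rfl
  rw [Submodule.Quotient.eq] at h2
  have h2' : (((⟨y, hy⟩ - ∑ q, k q • x q : ZN u N (B.map (ev u))) : Fin b → D)) ∈
      BN u N (A.map (ev u)) := h2
  obtain ⟨w, hw1, hw2⟩ := h2'
  refine ⟨k, w, hw1, fun t => ?_⟩
  have h3 : y t - (∑ q, (k q : D) * (x q : Fin b → D) t) = ∑ r, w r * ev u (A r t) := by
    have h4 := congrFun hw2 t
    have h5 : (((⟨y, hy⟩ - ∑ q, k q • x q : ZN u N (B.map (ev u))) : Fin b → D)) t =
        y t - (∑ q, (k q : D) * (x q : Fin b → D) t) := by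
      rw [Submodule.coe_sub, Pi.sub_apply, Submodule.coe_sum, Finset.sum_apply]
      rfl
    rw [← h5]
    exact h4
  rw [← h3]
  abel

theorem spanLemma {Γ : Type} [Group Γ] {R' R U D : Type} [Ring R'] [StarRing R'] [Ring R] [Ring U]
    [DivisionRing D] {τ' : R' →+ ℝ} {j : R' →+* R} {ι : R →+* U} {κ : D →+* U} {u : Γ →* Dˣ}
    {lam : Γ →* R} {N : Subgroup Γ} (S : Setup τ' j ι κ u lam N) {a b d β : ℕ} (A : Matrix (Fin a) (Fin b) (MonoidAlgebra ℤ Γ))
    (B : Matrix (Fin b) (Fin d) (MonoidAlgebra ℤ Γ)) (x : Fin β → ZN u N (B.map (ev u)))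
    (hx : ⊤ ≤ Submodule.span (Dc u N) (Set.range fun q =>
      (Submodule.Quotient.mk (x q) : HN u N (A.map (ev u)) (B.map (ev u)))))
    (v : Fin b → U) (hv : InS j ι κ u N v) (h : ∀ t, ∑ i, v i * κ (ev u (B i t)) = 0) :
    ∃ (c : Fin β → U) (w : Fin a → U), (∀ q, c q ∈ UN j ι) ∧ InS j ι κ u N w ∧
      ∀ t, v t = ∑ q, c q * κ ((x q : Fin b → D) t) + ∑ i, w i * κ (ev u (A i t)) := by
  obtain ⟨m, c, y, hc, hy, hv'⟩ := kerLemma S B v hv h
  choose k w hw hk using fun i => spanLemma_one A B x hx (y i) (hy i)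
  refine ⟨fun q => ∑ i, c i * κ (k i q : D), fun r => ∑ i, c i * κ (w i r), ?_, ?_, ?_⟩
  · intro q
    exact unSum S Finset.univ _ (fun i _ => unMul S _ _ (hc i) (unK S (k i q)))
  · exact insSum S (fun i r => c i * κ (w i r)) (fun i => insSmul S _ (insD S (w i) (hw i)) (c i) (hc i))
  · intro t
    rw [hv' t]
    have e : ∀ i, c i * κ (y i t) = ∑ q, c i * κ (k i q : D) * κ ((x q : Fin b → D) t) +
        ∑ r, c i * κ (w i r) * κ (ev u (A r t)) := by
      intro i
      rw [hk i t, map_add, map_sum, map_sum, mul_add, Finset.mul_sum, Finset.mul_sum]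
      simp only [map_mul, mul_assoc]
    rw [Finset.sum_congr rfl (fun i _ => e i), Finset.sum_add_distrib, Finset.sum_comm,
      Finset.sum_comm (f := fun i r => c i * κ (w i r) * κ (ev u (A r t)))]
    simp only [Finset.sum_mul]

end V6
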