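import Pool.Agent.Helper831.V6.Defs
import Pool.Agent.Helper831.V6.P_insBase
import Pool.Agent.Helper831.V6.P_spanLemma

attribute [local instance] VN831.bcFunctor_additive VN831.viaAdd VN831.viaMod

set_option autoImplicit false

namespace V6

open Pool.Agent.RK TN970 VN831


theorem upperCore {Γ : Type} [Group Γ] {R' R U D : Type} [Ring R'] [StarRing R'] [Ring R] [Ring U]
    [DivisionRing D] {τ' : R' →+ ℝ} {j : R' →+* R} {ι : R →+* U} {κ : D →+* U} {u : Γ →* Dˣ}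
    {lam : Γ →* R} {N : Subgroup Γ} (S : Setup τ' j ι κ u lam N) (κ0 : MonoidAlgebra ℤ Γ →+* R) (hκ0 : ∀ a, κ (ev u a) = ι (κ0 a))
    {a b d β k : ℕ} (A : Matrix (Fin a) (Fin b) (MonoidAlgebra ℤ Γ))
    (B : Matrix (Fin b) (Fin d) (MonoidAlgebra ℤ Γ)) (x : Fin β → ZN u N (B.map (ev u)))
    (hx : ⊤ ≤ Submodule.span (Dc u N) (Set.range fun q =>
      (Submodule.Quotient.mk (x q) : HN u N (A.map (ev u)) (B.map (ev u)))))
    (v : Fin k → Fin b → R) (hv : ∀ i t, (show Via j from v i t) ∈ SR j lam)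
    (hB : ∀ i t, ∑ s, v i s * κ0 (B s t) = 0) :
    ∃ (F : Matrix (Fin k) (Fin β) U) (w : Fin k → Fin a → U), (∀ i q, F i q ∈ UN j ι) ∧
      (∀ i, InS j ι κ u N (w i)) ∧
      ∀ i t, ι (v i t) = ∑ q, F i q * κ ((x q : Fin b → D) t) +
        ∑ l, w i l * κ (ev u (A l t)) := by
  have key : ∀ i : Fin k, ∃ (c : Fin β → U) (w : Fin a → U), (∀ q, c q ∈ UN j ι) ∧
      InS j ι κ u N w ∧ ∀ t, ι (v i t) = ∑ q, c q * κ ((x q : Fin b → D) t) +
        ∑ l, w l * κ (ev u (A l t)) := by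
    intro i
    refine spanLemma S A B x hx (fun t => ι (v i t)) (insBase S (v i) (hv i)) ?_
    intro t
    have h1 := congrArg ι (hB i t)
    rw [map_sum, map_zero] at h1
    rw [← h1]
    exact Finset.sum_congr rfl fun s _ => by rw [hκ0, map_mul]
  choose F w h1 h2 h3 using key
  exact ⟨F, w, h1, h2, h3⟩

end V6
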